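import Mathlib
import Pool.Agent.Helper870.Defs
import Pool.Agent.Helper870.Upper
import Pool.Agent.Helper870.Lower

open MeasureTheory ProbabilityTheory Pool.Agent.Helper870.KNN

namespace Pool.Agent.Results.MP_16f06b_pr.ThetaOneOverD

/-- `c_*(d) = Θ(1/d)`: there are universal constants `0 < a` and `0 < C` such that in every
sufficiently high dimension `d`, the `⌊c log n⌋`-nearest neighbour graph of a Poisson process of
intensity one in the cube of volume `n` is disconnected with high probability for every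
`0 < c ≤ a / d`, and connected with high probability for every `c ≥ C / d`. -/
theorem result : ∃ a C : ℝ, 0 < a ∧ 0 < C ∧ ∃ d₀ : ℕ, ∀ d : ℕ, d₀ ≤ d →
    (∀ c : ℝ, 0 < c → c ≤ a / d →
      Whp d (fun n S => ¬ (knnGraph S ⌊c * Real.log n⌋₊).Connected)) ∧
    (∀ c : ℝ, C / d ≤ c →
      Whp d (fun n S => (knnGraph S ⌊c * Real.log n⌋₊).Connected)) := by
  obtain ⟨d0, hd02, hlow⟩ := lower
  refine ⟨1 / 90, bigC, by norm_num, ?_, d0, fun d hd => ⟨fun c _ hc => hlow d hd c hc,
    fun c hc => upper d (hd02.trans hd) c hc⟩⟩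
  unfold bigC
  have := gam_pos
  positivity

end Pool.Agent.Results.MP_16f06b_pr.ThetaOneOverD
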