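import Mathlib
import Pool.Agent.Helper870.Defs
import Pool.Agent.Helper870.Upper

open MeasureTheory ProbabilityTheory Pool.Agent.Helper870.KNN

namespace Pool.Agent.Results.MP_16f06b_pr.UpperOneOverD

/-- There is a universal constant `C` such that in every dimension `d ≥ 2` and for every
`c ≥ C / d`, the `⌊c log n⌋`-nearest neighbour graph of a Poisson process of intensity one in the
cube of volume `n` is connected with high probability. Hence `c_*(d) ≤ C / d`. -/
theorem result : ∃ C : ℝ, 0 < C ∧ ∀ d : ℕ, 2 ≤ d → ∀ c : ℝ, C / d ≤ c →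
    Whp d (fun n S => (knnGraph S ⌊c * Real.log n⌋₊).Connected) := by
  refine ⟨bigC, ?_, fun d hd c hc => upper d hd c hc⟩
  unfold bigC
  have := gam_pos
  positivity

end Pool.Agent.Results.MP_16f06b_pr.UpperOneOverD
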